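import Pool.Agent.X13.CB.Neg

/-!
# MP_8976f7_nt, Q1 (disproved)

For `p = 2` and `k = 11 ∉ E_2 = {2^s - 1}` the 2-adic valuation of the number `A_{2,11}(n)` of
11-coloured binary partitions of `n` is at most `4` for every `n`.

Proof idea: with `F = ∏ (1-x^(2^i))` one has `(F (1-x))^16 ≡ 1 (mod 32)`, hence
`∑ A_{2,11}(n) x^n = F^(-11) ≡ F^5 (1-x)^16 (mod 32)`, and the binary sections of
`F^5 P(x)`, `P` a polynomial modulo 32, are again of this form; starting from `(1-x)^16` only 70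
polynomials `P` modulo 32 are reached, and all of them have `P(0) ≢ 0 (mod 32)`.
-/

namespace Pool.Agent.Results.MP_8976f7_nt.BoundedForEleven

open PowerSeries

/-- `A m k n`: the coefficient of `x^n` in `∏_{i ≥ 0} (1 - x^(m^i))^(-k)`, i.e. the number of
`k`-coloured `m`-ary partitions of `n`.  For `m ≥ 2` only the factors with `m^i ≤ n`, hence `i ≤ n`,
matter, so the product is taken over `i ≤ n`; `invOfUnit (1 - X^(m^i)) 1` is the inverse of the
power series `1 - X^(m^i)`. -/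
noncomputable def A (m k n : ℕ) : ℤ :=
  coeff n ((∏ i ∈ Finset.range (n + 1), invOfUnit (1 - (X : PowerSeries ℤ) ^ (m ^ i)) 1) ^ k)

/-- the exceptional set `E_p` -/
def E (p : ℕ) : Set ℕ := {k | ∃ s u : ℕ, 1 ≤ u ∧ u ≤ p - 1 ∧ k = (p - 1) * (u * p ^ s - 1)}

/-- the assertion of Q1 -/
def Q1 : Prop :=
  ∀ p k : ℕ, p.Prime → 0 < k → k ∉ E p → ∀ B : ℕ, ∃ n : ℕ, (p : ℤ) ^ B ∣ A p k n

theorem result :
    -- meaning of the definition for `m = 2`: inverses of the factors, longer products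
    (∀ i : ℕ, (1 - (X : PowerSeries ℤ) ^ (2 ^ i)) * invOfUnit (1 - X ^ (2 ^ i)) 1 = 1) ∧
    (∀ k n N : ℕ, n + 1 ≤ N →
      coeff n ((∏ i ∈ Finset.range N, invOfUnit (1 - (X : PowerSeries ℤ) ^ (2 ^ i)) 1) ^ k)
        = A 2 k n) ∧
    -- the counterexample
    11 ∉ E 2 ∧ (∀ n : ℕ, ¬ (2 : ℤ) ^ 5 ∣ A 2 11 n) ∧ ¬ Q1 := by
  have h1 : 11 ∉ E 2 := by
    rintro ⟨s, u, hu1, hu2, h⟩
    have hu : u = 1 := by omega
    subst hu
    have h2 : 2 ^ s = 12 := by
      have := Nat.one_le_two_pow (n := s)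
      omega
    rcases Nat.lt_or_ge s 4 with hs | hs
    · interval_cases s <;> omega
    · have := Nat.pow_le_pow_right (show 1 ≤ 2 by norm_num) hs
      omega
  have h2 : ∀ n : ℕ, ¬ (2 : ℤ) ^ 5 ∣ A 2 11 n := fun n h => X13.CB.bc11 n (by
    have e : (2 : ℤ) ^ 5 = 32 := by norm_num
    rw [e] at h
    exact h)
  refine ⟨X13.CB.gi_mul, X13.CB.coeff_PP_stable, h1, h2, ?_⟩
  intro hq
  obtain ⟨n, hn⟩ := hq 2 11 Nat.prime_two (by norm_num) h1 5
  exact h2 n (by exact_mod_cast hn)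

end Pool.Agent.Results.MP_8976f7_nt.BoundedForEleven
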